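import Mathlib
import Pool.Agent.H51.CubeD

namespace Pool.Agent.Results.MP_ab80ef_co.Stab
open Finset
open scoped symmDiff

/-- Points of `{0,1}^n` are identified with subsets of `Fin n`; two points are adjacent when
their symmetric difference has one element.  `bdry A` is the number of edges with exactly one
endpoint in `A`. -/
def bdry {n : ℕ} (A : Finset (Finset (Fin n))) : ℕ :=
  ((A ×ˢ Aᶜ).filter (fun p => (p.1 ∆ p.2).card = 1)).card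

/-- The subcube of the points agreeing with `a` on the coordinates in `S`. -/
def subcube {n : ℕ} (S a : Finset (Fin n)) : Finset (Finset (Fin n)) :=
  univ.filter (fun x => ∀ i ∈ S, (i ∈ x ↔ i ∈ a))

/-- The set of values whose infimum is `f δ`. -/
def values (δ : ℝ) : Set ℝ :=
  {r | ∃ n : ℕ, 1 ≤ n ∧ ∃ A : Finset (Finset (Fin n)), (∃ d : ℕ, A.card = 2 ^ d) ∧
    (∀ S a : Finset (Fin n), δ * (A.card : ℝ) ≤ ((A ∆ subcube S a).card : ℝ)) ∧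
    r = ((bdry A : ℝ) - (A.card : ℝ) * Real.logb 2 ((2 : ℝ) ^ n / (A.card : ℝ))) / (A.card : ℝ)}

/-- The function `f` of the problem. -/
noncomputable def f (δ : ℝ) : ℝ := sInf (values δ)

theorem val_eq {n d : ℕ} (A : Finset (Finset (Fin n))) (hA : A.card = 2 ^ d) :
    ((bdry A : ℝ) - (A.card : ℝ) * Real.logb 2 ((2 : ℝ) ^ n / (A.card : ℝ))) / (A.card : ℝ)
      = ((d : ℝ) * 2 ^ d - 2 * (H51.Cube.ed A : ℝ)) / 2 ^ d := by
  have h := H51.Cube.bdry_eq A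
  rw [Fintype.card_fin] at h
  have h' : (bdry A : ℝ) + 2 * (H51.Cube.ed A : ℝ) = n * (A.card : ℝ) := by
    unfold bdry; exact_mod_cast h
  have hc : (A.card : ℝ) = 2 ^ d := by rw [hA]; push_cast; rfl
  rw [hc] at h' ⊢
  rw [Real.logb_div (by positivity) (by positivity), Real.logb_pow, Real.logb_pow,
    Real.logb_self_eq_one (by norm_num)]
  congr 1
  linarith

theorem lower (j : ℕ) (hj : 1 ≤ j) (r : ℝ) (hr : r ∈ values ((2 : ℝ) ^ (-(j : ℤ)))) :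
    (j : ℝ) * (2 : ℝ) ^ (-(j : ℤ)) ≤ r := by
  obtain ⟨n, _, A, ⟨d, hA⟩, hfar, rfl⟩ := hr
  rw [val_eq A hA]
  by_contra hc
  push Not at hc
  rw [zpow_neg, zpow_natCast] at hc hfar
  have hj2 : (0 : ℝ) < 2 ^ j := by positivity
  have hd2 : (0 : ℝ) < 2 ^ d := by positivity
  rw [← div_eq_mul_inv, div_lt_div_iff₀ hd2 hj2] at hc
  have hH : 2 ^ j * (d * 2 ^ d) < j * 2 ^ d + 2 ^ j * (2 * H51.Cube.ed A) := by
    have : (2 : ℝ) ^ j * (d * 2 ^ d) < j * 2 ^ d + 2 ^ j * (2 * (H51.Cube.ed A : ℝ)) := by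
      linarith
    exact_mod_cast this
  obtain ⟨S, a, h⟩ := H51.Cube.stability' hj hA hH
  have h1 := hfar S a
  have h2 : (2 : ℝ) ^ j * ((A ∆ subcube S a).card : ℝ) < 2 ^ d := by
    have h3 : 2 ^ j * (A ∆ subcube S a).card < 2 ^ d := by
      unfold subcube; convert h using 5
    exact_mod_cast h3
  have hc : (A.card : ℝ) = 2 ^ d := by rw [hA]; push_cast; rfl
  rw [hc, inv_mul_le_iff₀ hj2] at h1
  linarith

theorem attained (j : ℕ) (hj : 1 ≤ j) :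
    (j : ℝ) * (2 : ℝ) ^ (-(j : ℤ)) ∈ values ((2 : ℝ) ^ (-(j : ℤ))) := by
  obtain ⟨i, rfl⟩ : ∃ i, j = i + 1 := ⟨j - 1, by omega⟩
  have hc : Fintype.card (Fin (i + 3)) = (i + 1) + 2 := by simp
  have hA := H51.Cube.card_Ex hc (0 : Fin (i + 3))
  have he := H51.Cube.ed_Ex hc (0 : Fin (i + 3))
  have hcr : ((H51.Cube.Ex (0 : Fin (i + 3))).card : ℝ) = 2 ^ (i + 1 + 1) := by
    rw [hA]; push_cast; rfl
  have hj2 : (0 : ℝ) < 2 ^ (i + 1) := by positivity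
  have hmem : (((i + 1 + 1 : ℕ) : ℝ) * 2 ^ (i + 1 + 1) -
      2 * (H51.Cube.ed (H51.Cube.Ex (0 : Fin (i + 3))) : ℝ)) / 2 ^ (i + 1 + 1)
      ∈ values ((2 : ℝ) ^ (-((i + 1 : ℕ) : ℤ))) := by
    refine ⟨i + 3, by omega, H51.Cube.Ex 0, ⟨_, hA⟩, ?_, (val_eq _ hA).symm⟩
    intro S a
    have h := H51.Cube.far_Ex (o := (0 : Fin (i + 3))) (u := ⟨1, by omega⟩) (v := ⟨2, by omega⟩)
      (by simp [Fin.ext_iff]) (by simp [Fin.ext_iff]) (by simp [Fin.ext_iff]) S a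
    have h' : (2 : ℝ) ≤ ((H51.Cube.Ex (0 : Fin (i + 3)) ∆ subcube S a).card : ℝ) := by
      have h3 : 2 ≤ (H51.Cube.Ex (0 : Fin (i + 3)) ∆ subcube S a).card := by
        unfold subcube; convert h using 4
      exact_mod_cast h3
    rw [hcr, zpow_neg, zpow_natCast, inv_mul_le_iff₀ hj2, pow_succ (2 : ℝ) (i + 1)]
    exact mul_le_mul_of_nonneg_left h' hj2.le
  have hlow := lower (i + 1) hj _ hmem
  have hup : (((i + 1 + 1 : ℕ) : ℝ) * 2 ^ (i + 1 + 1) -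
      2 * (H51.Cube.ed (H51.Cube.Ex (0 : Fin (i + 3))) : ℝ)) / 2 ^ (i + 1 + 1)
      ≤ ((i + 1 : ℕ) : ℝ) * (2 : ℝ) ^ (-((i + 1 : ℕ) : ℤ)) := by
    have he' : ((i + 1 + 1 : ℕ) : ℝ) * 2 ^ (i + 1) ≤
        (H51.Cube.ed (H51.Cube.Ex (0 : Fin (i + 3))) : ℝ) + ((i + 1 : ℕ) : ℝ) := by
      exact_mod_cast he
    rw [zpow_neg, zpow_natCast, ← div_eq_mul_inv, div_le_div_iff₀ (by positivity) hj2,
      pow_succ (2 : ℝ) (i + 1)]
    nlinarith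
  rw [le_antisymm hlow hup]
  exact hmem

lemma both : ∀ j : ℕ, 1 ≤ j →
    IsLeast (values ((2 : ℝ) ^ (-(j : ℤ)))) ((j : ℝ) * (2 : ℝ) ^ (-(j : ℤ))) ∧
    f ((2 : ℝ) ^ (-(j : ℤ))) = (j : ℝ) * (2 : ℝ) ^ (-(j : ℤ)) := by
  intro j hj
  have h : IsLeast (values ((2 : ℝ) ^ (-(j : ℤ)))) ((j : ℝ) * (2 : ℝ) ^ (-(j : ℤ))) :=
    ⟨attained j hj, fun r hr => lower j hj r hr⟩
  exact ⟨h, h.csInf_eq⟩

theorem result : ∀ j : ℕ, 1 ≤ j →
    f ((2 : ℝ) ^ (-(j : ℤ))) = (j : ℝ) * (2 : ℝ) ^ (-(j : ℤ)) := fun j hj => (both j hj).2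


end Pool.Agent.Results.MP_ab80ef_co.Stab
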